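import Pool.Agent.helper54.V3.SpecT

set_option autoImplicit false

open Complex Metric Set Filter Topology MeasureTheory

noncomputable section

namespace V3

theorem TBX : TBX_stmt := by
  refine ⟨?_, ?_⟩
  · intro f a r r' C hr hr' hf hC x hx
    have hcl : closure (ball a r) = closedBall a r := closure_ball a hr.ne'
    have hfr : frontier (ball a r) = sphere a r := frontier_ball a hr.ne'
    have hd : DiffContOnCl ℂ f (ball a r) := by
      apply DifferentiableOn.diffContOnCl
      rw [hcl]
      exact hf.mono (closedBall_subset_ball hr')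
    refine Complex.norm_le_of_forall_mem_frontier_norm_le isBounded_ball hd (C := C) ?_ ?_
    · rw [hfr]; exact hC
    · rw [hcl]; exact hx
  · intro U f K hK h
    refine hK.induction_on (p := fun s => ∃ C : ℝ, ∀ᶠ m in (U : Filter ℕ), ∀ y ∈ s, ‖f m y‖ ≤ C)
      ?_ ?_ ?_ ?_
    · exact ⟨0, Eventually.of_forall fun m y hy => absurd hy (notMem_empty y)⟩
    · rintro s t hst ⟨C, hC⟩
      exact ⟨C, hC.mono fun m hm y hy => hm y (hst hy)⟩
    · rintro s t ⟨C, hC⟩ ⟨D, hD⟩
      refine ⟨max C D, (hC.and hD).mono ?_⟩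
      rintro m ⟨h1, h2⟩ y (hy | hy)
      · exact (h1 y hy).trans (le_max_left _ _)
      · exact (h2 y hy).trans (le_max_right _ _)
    · intro x hx
      obtain ⟨r, hr, C, hC⟩ := h x hx
      exact ⟨ball x r, mem_nhdsWithin_of_mem_nhds (ball_mem_nhds x hr), C, hC⟩

end V3
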