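import Pool.Agent.helper54.V3.SpecE

set_option autoImplicit false

open Complex Metric Set Filter Topology MeasureTheory

noncomputable section

namespace V3

theorem FPL_inner (g : ℝ → ℝ) (κ : ℝ) (hg : ∀ x, 0 ≤ g x)
    (hper : Function.Periodic g (2 * Real.pi))
    (h : κ ≤ ∫ φ in (0 : ℝ)..(2 * Real.pi), g φ) :
    ENNReal.ofReal κ ≤ ∫⁻ φ in Ioo (-Real.pi) Real.pi, ENNReal.ofReal (g φ) := by
  have e1 : ∫ φ in (0 : ℝ)..(2 * Real.pi), g φ = ∫ φ in Ioo (-Real.pi) Real.pi, g φ := by
    have h1 := hper.intervalIntegral_add_eq 0 (-Real.pi)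
    rw [zero_add] at h1
    rw [h1, show -Real.pi + 2 * Real.pi = Real.pi by ring,
      intervalIntegral.integral_of_le (by linarith [Real.pi_pos]), integral_Ioc_eq_integral_Ioo]
  rw [e1] at h
  refine (ENNReal.ofReal_le_ofReal h).trans ?_
  by_cases hi : Integrable g (volume.restrict (Ioo (-Real.pi) Real.pi))
  · rw [ofReal_integral_eq_lintegral_ofReal hi (Eventually.of_forall hg)]
  · rw [integral_undef hi]; simp

theorem FPL : FPL_stmt := by
  intro f κ R₁ R hm h0 hint hR1 hR hκ hc
  have hpi := Real.pi_pos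
  have hb : MeasurableSet (ball (0 : ℂ) R) := measurableSet_ball
  -- the integral as a lower integral
  have e1 : ENNReal.ofReal (∫ x in ball (0 : ℂ) R, f x) =
      ∫⁻ x in ball (0 : ℂ) R, ENNReal.ofReal (f x) :=
    ofReal_integral_eq_lintegral_ofReal hint (Eventually.of_forall h0)
  set F : ℂ → ENNReal := (ball (0 : ℂ) R).indicator (fun x => ENNReal.ofReal (f x)) with hF
  have hFm : Measurable F := (ENNReal.measurable_ofReal.comp hm).indicator hb
  have e2 : ∫⁻ x in ball (0 : ℂ) R, ENNReal.ofReal (f x) = ∫⁻ x, F x := by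
    rw [hF, lintegral_indicator hb]
  have hsym : Measurable (fun p : ℝ × ℝ => Complex.polarCoord.symm p) := by
    have : (fun p : ℝ × ℝ => Complex.polarCoord.symm p) =
        fun p : ℝ × ℝ => (p.1 : ℂ) * (Real.cos p.2 + Real.sin p.2 * Complex.I) := by
      funext p; exact Complex.polarCoord_symm_apply p
    rw [this]
    apply Continuous.measurable
    fun_prop
  have e3 : ∫⁻ x, F x = ∫⁻ r in Ioi (0 : ℝ), ∫⁻ φ in Ioo (-Real.pi) Real.pi,
      ENNReal.ofReal r * F (Complex.polarCoord.symm (r, φ)) := by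
    rw [← Complex.lintegral_comp_polarCoord_symm F]
    have ht : polarCoord.target = Ioi (0 : ℝ) ×ˢ Ioo (-Real.pi) Real.pi := rfl
    rw [ht]
    rw [Measure.volume_eq_prod, setLIntegral_prod]
    · rfl
    · apply Measurable.aemeasurable
      exact (ENNReal.measurable_ofReal.comp measurable_fst).mul (hFm.comp hsym)
  have e4 : ENNReal.ofReal (κ * ((R ^ 2 - R₁ ^ 2) / 2)) ≤ ∫⁻ r in Ioi (0 : ℝ),
      ∫⁻ φ in Ioo (-Real.pi) Real.pi, ENNReal.ofReal r * F (Complex.polarCoord.symm (r, φ)) := by
    have k1 : ENNReal.ofReal (κ * ((R ^ 2 - R₁ ^ 2) / 2)) =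
        ∫⁻ r in Ioo R₁ R, ENNReal.ofReal (r * κ) := by
      have c1 : IntegrableOn (fun r : ℝ => r * κ) (Ioo R₁ R) :=
        ((continuous_id.mul continuous_const).integrableOn_Icc (a := R₁) (b := R)).mono_set
          Ioo_subset_Icc_self
      rw [← ofReal_integral_eq_lintegral_ofReal c1]
      · congr 1
        rw [← integral_Ioc_eq_integral_Ioo, ← intervalIntegral.integral_of_le hR.le,
          intervalIntegral.integral_mul_const, integral_id]
        ring
      · refine (ae_restrict_iff' measurableSet_Ioo).2 (Eventually.of_forall ?_)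
        intro r hr
        exact mul_nonneg (hR1.trans hr.1).le hκ
    rw [k1]
    have k2 : Ioo R₁ R ⊆ Ioi (0 : ℝ) := fun r hr => hR1.trans hr.1
    refine le_trans ?_ (lintegral_mono_set k2)
    refine setLIntegral_mono' measurableSet_Ioo ?_
    intro r hr
    have hr0 : 0 < r := hR1.trans hr.1
    have k3 : ∀ φ : ℝ, F (Complex.polarCoord.symm (r, φ)) =
        ENNReal.ofReal (f (r * exp (φ * I))) := by
      intro φ
      have k4 : Complex.polarCoord.symm (r, φ) = r * exp (φ * I) := by
        rw [Complex.polarCoord_symm_apply, Complex.exp_mul_I]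
        simp
      rw [k4, hF]
      apply indicator_of_mem
      rw [mem_ball_zero_iff, norm_mul, Complex.norm_exp_ofReal_mul_I, mul_one, Complex.norm_real,
        Real.norm_eq_abs, abs_of_pos hr0]
      exact hr.2
    simp_rw [k3]
    rw [lintegral_const_mul' _ _ ENNReal.ofReal_ne_top, ENNReal.ofReal_mul hr0.le]
    gcongr
    apply FPL_inner (fun φ : ℝ => f (r * exp (φ * I))) κ (fun φ => h0 _)
    · intro φ
      have : exp (((φ + 2 * Real.pi : ℝ) : ℂ) * I) = exp (φ * I) := by
        have : ((φ + 2 * Real.pi : ℝ) : ℂ) * I = φ * I + 2 * Real.pi * I := by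
          push_cast; ring
        rw [this, Complex.exp_add, Complex.exp_two_pi_mul_I, mul_one]
      show f (r * exp (((φ + 2 * Real.pi : ℝ) : ℂ) * I)) = f (r * exp (φ * I))
      rw [this]
    · exact hc r hr.1.le
  have e5 : ENNReal.ofReal (κ * ((R ^ 2 - R₁ ^ 2) / 2)) ≤
      ENNReal.ofReal (∫ x in ball (0 : ℂ) R, f x) := by
    rw [e1, e2, e3]; exact e4
  have hn : 0 ≤ ∫ x in ball (0 : ℂ) R, f x := integral_nonneg h0
  exact (ENNReal.ofReal_le_ofReal_iff hn).1 e5

end V3
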